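import Mathlib

set_option autoImplicit false

/-!
# The first zero of the Coulomb wave function is not monotone in `L` on `(-1, ∞)`
-/

open Set Filter Topology
open Complex (I)

namespace Pool.Agent.Results.MP_75022b_an.NotMonotone

/-- The Pochhammer symbol `(a)_k = a (a+1) ⋯ (a+k-1)`. -/
noncomputable def poch (a : ℂ) (k : ℕ) : ℂ := ∏ j ∈ Finset.range k, (a + j)

/-- Kummer's function `M(a, b, z)`. -/
noncomputable def M (a b z : ℂ) : ℂ := ∑' k : ℕ, poch a k / poch b k * (z ^ k / (k.factorial : ℂ))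

/-- The constant `C_L(η)`. -/
noncomputable def C (L η : ℝ) : ℝ :=
  2 ^ L * Real.exp (-Real.pi * η / 2) * ‖Complex.Gamma (L + 1 + I * η)‖ / Real.Gamma (2 * L + 2)

/-- The regular Coulomb wave function `F_{L,η}(ρ)`, `ρ > 0`. -/
noncomputable def F (L η ρ : ℝ) : ℂ :=
  (C L η : ℂ) * ((ρ ^ (L + 1) : ℝ) : ℂ) * Complex.exp (-(I * ρ)) *
    M (L + 1 - I * η) (2 * L + 2) (2 * I * ρ)

/-- `x` is the `n`-th positive zero `ρ_{L,η,n}`: a positive zero such that there are exactly `n`
zeros in `(0, x]`. -/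
def IsNthZero (L η : ℝ) (n : ℕ) (x : ℝ) : Prop :=
  0 < x ∧ F L η x = 0 ∧ {y : ℝ | 0 < y ∧ y ≤ x ∧ F L η y = 0}.encard = n

/-! ### The coefficients -/

/-- The coefficients of `(L + 1) ρ^{-L-1} F_{L,η}(ρ) / C_L(η)`, `t = L + 1`. -/
noncomputable def a (η t : ℝ) : ℕ → ℝ
  | 0 => t
  | 1 => η
  | (k + 2) => (2 * η * a η t (k + 1) - a η t k) / ((k + 2) * (k + 1 + 2 * t))

lemma a_zero (η t : ℝ) : a η t 0 = t := by rw [a]
lemma a_one (η t : ℝ) : a η t 1 = η := by rw [a]
lemma a_succ (η t : ℝ) (k : ℕ) : a η t (k + 2) =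
    (2 * η * a η t (k + 1) - a η t k) / ((k + 2) * (k + 1 + 2 * t)) := by rw [a]

lemma a_bound {η t : ℝ} (hη : 0 ≤ η) (h0 : 0 ≤ t) (h1 : t ≤ 1) (k : ℕ) :
    |a η t k| ≤ (2 * η + 1) ^ k / ((k - 1).factorial : ℝ) ∧
    |a η t (k + 1)| ≤ (2 * η + 1) ^ (k + 1) / (k.factorial : ℝ) := by
  have hc : 1 ≤ 2 * η + 1 := by linarith
  induction k with
  | zero =>
    constructor
    · rw [a_zero]
      simp [abs_of_nonneg h0, h1]
    · rw [a_one, abs_of_nonneg hη]
      simp
      linarith
  | succ k ih =>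
    refine ⟨ih.2, ?_⟩
    rw [show k + 1 + 1 = k + 2 by ring, a_succ, abs_div]
    have hden : (0 : ℝ) < (k + 2) * (k + 1 + 2 * t) := by positivity
    rw [abs_of_pos hden, div_le_iff₀ hden]
    set c := 2 * η + 1 with hcdef
    have hk0 : (0 : ℝ) < (k.factorial : ℝ) := by positivity
    have e1 : 1 / ((k - 1).factorial : ℝ) ≤ (k + 1) / (k.factorial : ℝ) := by
      rw [div_le_div_iff₀ (by positivity) hk0, one_mul]
      rcases Nat.eq_zero_or_pos k with h | h
      · subst h; simp
      · have h2 : (k.factorial : ℝ) = k * ((k - 1).factorial : ℝ) := by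
          exact_mod_cast (Nat.mul_factorial_pred (by omega)).symm
        rw [h2]
        apply mul_le_mul_of_nonneg_right _ (by positivity)
        linarith
    have e2 : |a η t k| ≤ c ^ k * ((k + 1) / (k.factorial : ℝ)) := by
      refine ih.1.trans ?_
      rw [div_eq_mul_one_div]
      exact mul_le_mul_of_nonneg_left e1 (by positivity)
    have e3 : |2 * η * a η t (k + 1) - a η t k| ≤ 2 * η * |a η t (k + 1)| + |a η t k| := by
      refine (abs_sub _ _).trans ?_
      rw [abs_mul, abs_of_nonneg (show 0 ≤ 2 * η by positivity)]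
    have e4 : ((k + 1).factorial : ℝ) = (k + 1) * k.factorial := by
      rw [Nat.factorial_succ]; push_cast; ring
    have e5 : c ^ (k + 2) / ((k + 1).factorial : ℝ) * ((k + 2) * (k + 1 + 2 * t)) ≥
        c ^ (k + 2) * ((k + 2) / (k.factorial : ℝ)) := by
      rw [e4]
      have : c ^ (k + 2) / ((k + 1) * (k.factorial : ℝ)) * ((k + 2) * (k + 1 + 2 * t)) =
          c ^ (k + 2) * ((k + 2) / (k.factorial : ℝ)) * ((k + 1 + 2 * t) / (k + 1)) := by
        field_simp
      rw [this]
      have h3 : 1 ≤ ((k : ℝ) + 1 + 2 * t) / (k + 1) := by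
        rw [one_le_div (by positivity)]
        linarith
      have h4 : 0 ≤ c ^ (k + 2) * (((k : ℝ) + 2) / (k.factorial : ℝ)) := by positivity
      nlinarith
    have e6 : 2 * η * |a η t (k + 1)| ≤ c ^ (k + 2) * (1 / (k.factorial : ℝ)) := by
      calc 2 * η * |a η t (k + 1)| ≤ c * (c ^ (k + 1) / (k.factorial : ℝ)) :=
            mul_le_mul (by linarith) ih.2 (abs_nonneg _) (by linarith)
        _ = c ^ (k + 2) * (1 / (k.factorial : ℝ)) := by ring
    have e7 : c ^ k * ((k + 1) / (k.factorial : ℝ)) ≤ c ^ (k + 2) * ((k + 1) / (k.factorial : ℝ)) := by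
      apply mul_le_mul_of_nonneg_right _ (by positivity)
      exact pow_le_pow_right₀ hc (by omega)
    have e8 : c ^ (k + 2) * (1 / (k.factorial : ℝ)) + c ^ (k + 2) * ((k + 1) / (k.factorial : ℝ)) =
        c ^ (k + 2) * ((k + 2) / (k.factorial : ℝ)) := by ring
    linarith

/-- the majorant -/
noncomputable def maj (c R : ℝ) (k : ℕ) : ℝ := c ^ k / ((k - 1).factorial : ℝ) * R ^ k

lemma maj_summable (c R : ℝ) : Summable (maj c R) := by
  rw [← summable_nat_add_iff 1]
  have h1 := (Real.summable_pow_div_factorial (c * R)).mul_left (c * R)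
  refine h1.congr fun k => ?_
  unfold maj
  rw [Nat.add_sub_cancel, pow_succ, pow_succ, mul_pow]
  ring

/-- entire power series -/
def Ent (A : ℕ → ℝ) : Prop := ∀ R : ℝ, 0 ≤ R → Summable fun k => |A k| * R ^ k

lemma ent_a {η t : ℝ} (hη : 0 ≤ η) (h0 : 0 ≤ t) (h1 : t ≤ 1) : Ent (a η t) := by
  intro R hR
  refine Summable.of_nonneg_of_le (fun k => by positivity) (fun k => ?_)
    (maj_summable (2 * η + 1) R)
  exact mul_le_mul_of_nonneg_right (a_bound hη h0 h1 k).1 (by positivity)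

/-- sum of a power series -/
noncomputable def S (A : ℕ → ℝ) (x : ℝ) : ℝ := ∑' k, A k * x ^ k

/-- coefficients of the derivative -/
def dA (A : ℕ → ℝ) (k : ℕ) : ℝ := (k + 1) * A (k + 1)

lemma Ent.summable {A : ℕ → ℝ} (h : Ent A) (x : ℝ) : Summable fun k => A k * x ^ k := by
  refine Summable.of_norm_bounded (h |x| (abs_nonneg x)) fun k => ?_
  rw [Real.norm_eq_abs, abs_mul, abs_pow]

lemma Ent.deriv {A : ℕ → ℝ} (h : Ent A) : Ent (dA A) := by
  intro R hR
  have h1 := (summable_nat_add_iff 1).2 (h (2 * R + 1) (by positivity))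
  refine Summable.of_nonneg_of_le (fun k => by positivity) (fun k => ?_) h1
  unfold dA
  rw [abs_mul, abs_of_pos (show (0 : ℝ) < k + 1 by positivity)]
  have h2 : ((k : ℝ) + 1) ≤ 2 ^ k := by
    have := Nat.lt_two_pow_self (n := k)
    have h3 : k + 1 ≤ 2 ^ k := this
    exact_mod_cast h3
  calc ((k : ℝ) + 1) * |A (k + 1)| * R ^ k = |A (k + 1)| * (((k : ℝ) + 1) * R ^ k) := by ring
    _ ≤ |A (k + 1)| * (2 ^ k * R ^ k) := by
        apply mul_le_mul_of_nonneg_left _ (abs_nonneg _)
        exact mul_le_mul_of_nonneg_right h2 (by positivity)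
    _ = |A (k + 1)| * (2 * R) ^ k := by rw [mul_pow]
    _ ≤ |A (k + 1)| * (2 * R + 1) ^ (k + 1) := by
        apply mul_le_mul_of_nonneg_left _ (abs_nonneg _)
        calc (2 * R) ^ k ≤ (2 * R + 1) ^ k := pow_le_pow_left₀ (by positivity) (by linarith) k
          _ ≤ (2 * R + 1) ^ (k + 1) := pow_le_pow_right₀ (by linarith) (by omega)

lemma Ent.hasDerivAt {A : ℕ → ℝ} (h : Ent A) (x : ℝ) : HasDerivAt (S A) (S (dA A) x) x := by
  set R := |x| + 1 with hR
  have hR0 : 0 ≤ R := by positivity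
  set g' : ℕ → ℝ → ℝ := fun k y => A k * (k * y ^ (k - 1)) with hg'
  have hu : Summable fun k : ℕ => |A k| * (k * R ^ (k - 1)) := by
    rw [← summable_nat_add_iff 1]
    refine (h.deriv R hR0).congr fun k => ?_
    unfold dA
    rw [abs_mul, abs_of_pos (show (0 : ℝ) < k + 1 by positivity), Nat.add_sub_cancel]
    push_cast
    ring
  have h1 := hasDerivAt_tsum_of_isPreconnected (𝕜 := ℝ) (g := fun k y => A k * y ^ k) (g' := g')
    (t := Metric.ball (0 : ℝ) R) (y₀ := 0) (y := x) hu Metric.isOpen_ball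
    (convex_ball (0 : ℝ) R).isPreconnected
    (fun k y _ => (hasDerivAt_pow k y).const_mul (A k)) ?_ (Metric.mem_ball_self (by positivity))
    (h.summable 0) ?_
  · have h2 : ∑' k, g' k x = S (dA A) x := by
      unfold S
      have h3 : Summable fun k => g' k x := by
        refine Summable.of_norm_bounded hu fun k => ?_
        rw [hg', Real.norm_eq_abs]
        simp only
        rw [abs_mul, abs_mul, Nat.abs_cast, abs_pow]
        apply mul_le_mul_of_nonneg_left _ (abs_nonneg _)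
        apply mul_le_mul_of_nonneg_left _ (by positivity)
        exact pow_le_pow_left₀ (abs_nonneg _) (by linarith) _
      rw [h3.tsum_eq_zero_add]
      rw [hg']
      simp only [Nat.cast_zero, zero_mul, mul_zero, zero_add]
      apply tsum_congr
      intro k
      unfold dA
      rw [Nat.add_sub_cancel]
      push_cast
      ring
    rw [h2] at h1
    exact h1
  · intro k y hy
    rw [mem_ball_zero_iff, Real.norm_eq_abs] at hy
    rw [hg', Real.norm_eq_abs]
    simp only
    rw [abs_mul, abs_mul, Nat.abs_cast, abs_pow]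
    apply mul_le_mul_of_nonneg_left _ (abs_nonneg _)
    apply mul_le_mul_of_nonneg_left _ (by positivity)
    exact pow_le_pow_left₀ (abs_nonneg _) hy.le _
  · rw [mem_ball_zero_iff, Real.norm_eq_abs]
    linarith


/-! ### The differential equation -/

/-- multiplication of a power series by the variable -/
def sh (A : ℕ → ℝ) : ℕ → ℝ
  | 0 => 0
  | (k + 1) => A k

lemma ent_sh {A : ℕ → ℝ} (h : Ent A) : Ent (sh A) := by
  intro R hR
  rw [← summable_nat_add_iff 1]
  refine ((h R hR).mul_left R).congr fun k => ?_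
  simp only [sh]
  rw [pow_succ]
  ring

lemma S_sh {A : ℕ → ℝ} (h : Ent A) (x : ℝ) : S (sh A) x = x * S A x := by
  unfold S
  rw [((ent_sh h).summable x).tsum_eq_zero_add, ← tsum_mul_left]
  simp only [sh, zero_mul, zero_add]
  apply tsum_congr
  intro k
  rw [pow_succ]
  ring

lemma ode {η t : ℝ} (hη : 0 ≤ η) (h0 : 0 ≤ t) (h1 : t ≤ 1) (x : ℝ) :
    x * S (dA (dA (a η t))) x + 2 * t * S (dA (a η t)) x + (x - 2 * η) * S (a η t) x = 0 := by
  have hA := ent_a hη h0 h1
  have hA1 := hA.deriv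
  have hA2 := hA1.deriv
  have e1 := S_sh hA2 x
  have e2 := S_sh hA x
  have s1 := (ent_sh hA2).summable x
  have s2 := (ent_sh hA).summable x
  have s3 := (hA1.summable x).mul_left (2 * t)
  have s4 := (hA.summable x).mul_left (2 * η)
  have hsum : S (sh (dA (dA (a η t)))) x + 2 * t * S (dA (a η t)) x + S (sh (a η t)) x -
      2 * η * S (a η t) x = 0 := by
    unfold S
    rw [← tsum_mul_left, ← tsum_mul_left, ← s1.tsum_add s3, ← (s1.add s3).tsum_add s2,
      ← ((s1.add s3).add s2).tsum_sub s4]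
    have : ∀ k, sh (dA (dA (a η t))) k * x ^ k + 2 * t * (dA (a η t) k * x ^ k) +
        sh (a η t) k * x ^ k - 2 * η * (a η t k * x ^ k) = 0 := by
      intro k
      cases k with
      | zero =>
        simp only [sh, dA, a_zero]
        push_cast
        rw [a_one]
        ring
      | succ k =>
        simp only [sh, dA]
        rw [show k + 1 + 1 = k + 2 by ring, a_succ]
        have h3 : ((k : ℝ) + 2) ≠ 0 := by positivity
        have h4 : ((k : ℝ) + 1 + 2 * t) ≠ 0 := by positivity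
        push_cast
        field_simp
        ring
    simp only [this, tsum_zero]
  rw [e1, e2] at hsum
  linarith

/-! ### Oscillation -/

lemma no_positive {w w1 w2 : ℝ → ℝ} {α : ℝ} (h1 : ∀ x, α ≤ x → HasDerivAt w (w1 x) x)
    (h2 : ∀ x, α ≤ x → HasDerivAt w1 (w2 x) x) (h3 : ∀ x, α ≤ x → w2 x ≤ -(w x / 2))
    (h4 : ∀ x, α ≤ x → 0 < w x) : False := by
  have hanti : AntitoneOn w1 (Ici α) := by
    apply antitoneOn_of_deriv_nonpos (convex_Ici α)
    · exact fun x hx => (h2 x hx).continuousAt.continuousWithinAt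
    · intro x hx
      rw [interior_Ici] at hx
      exact (h2 x (le_of_lt hx)).differentiableAt.differentiableWithinAt
    · intro x hx
      rw [interior_Ici] at hx
      rw [(h2 x (le_of_lt hx)).deriv]
      have := h3 x (le_of_lt hx)
      have := h4 x (le_of_lt hx)
      linarith
  have claim : ∀ b, α ≤ b → 0 ≤ w1 b := by
    intro b hb
    by_contra hneg
    push Not at hneg
    have h5 : AntitoneOn (fun x => w x - w1 b * x) (Ici b) := by
      apply antitoneOn_of_deriv_nonpos (convex_Ici b)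
      · intro x hx
        have hx' : α ≤ x := hb.trans hx
        exact ((h1 x hx').sub ((hasDerivAt_id x).const_mul (w1 b))).continuousAt.continuousWithinAt
      · intro x hx
        rw [interior_Ici] at hx
        have hx' : α ≤ x := hb.trans (le_of_lt hx)
        exact ((h1 x hx').sub
          ((hasDerivAt_id x).const_mul (w1 b))).differentiableAt.differentiableWithinAt
      · intro x hx
        rw [interior_Ici] at hx
        have hx' : α ≤ x := hb.trans (le_of_lt hx)
        have hder : HasDerivAt (fun x => w x - w1 b * x) (w1 x - w1 b * 1) x :=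
          (h1 x hx').sub ((hasDerivAt_id x).const_mul (w1 b))
        rw [hder.deriv]
        have := hanti (show b ∈ Ici α from hb) (show x ∈ Ici α from hx') (le_of_lt hx)
        linarith
    have hwb := h4 b hb
    set y := b + w b / (-w1 b) with hy
    have hby : b ≤ y := by
      have : 0 ≤ w b / (-w1 b) := div_nonneg hwb.le (by linarith)
      linarith
    have h6 := h5 (show b ∈ Ici b from le_refl b) (show y ∈ Ici b from hby) hby
    simp only at h6
    have h7 := h4 y (hb.trans hby)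
    have h8 : w1 b * (w b / (-w1 b)) = -w b := by
      have : w1 b ≠ 0 := hneg.ne
      field_simp
    rw [hy] at h6 h7
    nlinarith
  have hmono : MonotoneOn w (Ici α) := by
    apply monotoneOn_of_deriv_nonneg (convex_Ici α)
    · exact fun x hx => (h1 x hx).continuousAt.continuousWithinAt
    · intro x hx
      rw [interior_Ici] at hx
      exact (h1 x (le_of_lt hx)).differentiableAt.differentiableWithinAt
    · intro x hx
      rw [interior_Ici] at hx
      rw [(h1 x (le_of_lt hx)).deriv]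
      exact claim x (le_of_lt hx)
  have hwα := h4 α le_rfl
  have h5 : AntitoneOn (fun x => w1 x + w α / 2 * x) (Ici α) := by
    apply antitoneOn_of_deriv_nonpos (convex_Ici α)
    · intro x hx
      exact ((h2 x hx).add ((hasDerivAt_id x).const_mul (w α / 2))).continuousAt.continuousWithinAt
    · intro x hx
      rw [interior_Ici] at hx
      exact ((h2 x (le_of_lt hx)).add
        ((hasDerivAt_id x).const_mul (w α / 2))).differentiableAt.differentiableWithinAt
    · intro x hx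
      rw [interior_Ici] at hx
      have hder : HasDerivAt (fun x => w1 x + w α / 2 * x) (w2 x + w α / 2 * 1) x :=
        (h2 x (le_of_lt hx)).add ((hasDerivAt_id x).const_mul (w α / 2))
      rw [hder.deriv]
      have hx' : α < x := hx
      have h6 := h3 x hx'.le
      have h7 := hmono (mem_Ici.2 (le_refl α)) (mem_Ici.2 hx'.le) hx'.le
      linarith
  have hw1 := claim α le_rfl
  set y := α + (w1 α + 1) / (w α / 2) with hy
  have hαy : α ≤ y := by
    have : 0 ≤ (w1 α + 1) / (w α / 2) := by positivity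
    linarith
  have h6 := h5 (mem_Ici.2 (le_refl α)) (show y ∈ Ici α from hαy) hαy
  simp only at h6
  have h7 := claim y hαy
  have h8 : w α / 2 * ((w1 α + 1) / (w α / 2)) = w1 α + 1 := by
    field_simp
  rw [hy] at h6 h7
  nlinarith

lemma S_zero (A : ℕ → ℝ) : S A 0 = A 0 := by
  unfold S
  rw [tsum_eq_single 0]
  · simp
  · intro k hk
    simp [hk]

lemma S_cont {A : ℕ → ℝ} (h : Ent A) : Continuous (S A) :=
  continuous_iff_continuousAt.2 fun x => (h.hasDerivAt x).continuousAt

/-- positivity until the first zero -/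
lemma pos_of_no_zero {g : ℝ → ℝ} (hg : Continuous g) {δ X : ℝ} (hδ : 0 < δ)
    (h0 : ∀ x, 0 < x → x < δ → 0 < g x) (hne : ∀ x, 0 < x → x < X → g x ≠ 0) :
    ∀ x, 0 < x → x < X → 0 < g x := by
  intro x hx hxX
  by_contra hneg
  push Not at hneg
  have hδ2 : 0 < min (δ / 2) x := lt_min (by linarith) hx
  have h1 : 0 < g (min (δ / 2) x) :=
    h0 _ hδ2 (lt_of_le_of_lt (min_le_left _ _) (by linarith))
  have h2 : (0 : ℝ) ∈ Icc (g x) (g (min (δ / 2) x)) := ⟨hneg, h1.le⟩
  obtain ⟨y, hy, hy0⟩ := intermediate_value_Icc' (min_le_right (δ / 2) x) hg.continuousOn h2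
  exact hne y (lt_of_lt_of_le hδ2 hy.1) (lt_of_le_of_lt hy.2 hxX) hy0

lemma exists_zero {η t : ℝ} (hη : 0 ≤ η) (h0 : 0 < t) (h1 : t ≤ 1) :
    ∃ x, 0 < x ∧ S (a η t) x = 0 := by
  by_contra hcon
  push Not at hcon
  have hA := ent_a hη h0.le h1
  have hcont := S_cont hA
  -- positivity
  have hpos : ∀ x, 0 < x → 0 < S (a η t) x := by
    have hz : 0 < S (a η t) 0 := by rw [S_zero, a_zero]; exact h0
    obtain ⟨δ, hδ, hδ2⟩ := Metric.continuousAt_iff.1 hcont.continuousAt (S (a η t) 0) hz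
    intro x hx
    apply pos_of_no_zero hcont hδ (X := x + 1) _ (fun y hy _ => hcon y hy) x hx (by linarith)
    intro y hy hyδ
    have := hδ2 (show dist y 0 < δ by rw [Real.dist_eq, sub_zero, abs_of_pos hy]; exact hyδ)
    rw [Real.dist_eq] at this
    have := (abs_lt.1 this).1
    linarith
  set A := a η t with hAdef
  have hd1 := fun x => hA.hasDerivAt x
  have hd2 := fun x => hA.deriv.hasDerivAt x
  refine no_positive (α := 4 * η + 1) (w := fun x => x ^ t * S A x)
    (w1 := fun x => t * x ^ (t - 1) * S A x + x ^ t * S (dA A) x)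
    (w2 := fun x => (t * (t - 1) / x ^ 2 - 1 + 2 * η / x) * (x ^ t * S A x)) ?_ ?_ ?_ ?_
  · intro x hx
    have hx0 : 0 < x := by linarith
    have h2 := (Real.hasDerivAt_rpow_const (p := t) (Or.inl hx0.ne')).mul (hd1 x)
    exact h2
  · intro x hx
    have hx0 : 0 < x := by linarith
    have h2 := (((Real.hasDerivAt_rpow_const (p := t - 1) (Or.inl hx0.ne')).const_mul t).mul
      (hd1 x)).add ((Real.hasDerivAt_rpow_const (p := t) (Or.inl hx0.ne')).mul (hd2 x))
    refine h2.congr_deriv ?_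
    have h3 := ode hη h0.le h1 x
    have e1 : x ^ (t - 1) = x ^ t / x := by rw [Real.rpow_sub hx0, Real.rpow_one]
    have e2 : x ^ (t - 1 - 1) = x ^ t / x / x := by
      rw [Real.rpow_sub hx0, Real.rpow_sub hx0, Real.rpow_one]
    have e3 : S (dA (dA A)) x = (-(2 * t * S (dA A) x) - (x - 2 * η) * S A x) / x := by
      rw [eq_div_iff hx0.ne']
      linarith
    rw [e1, e2, e3]
    field_simp
    ring
  · intro x hx
    have hx0 : 0 < x := by linarith
    have hw : 0 < x ^ t * S A x := mul_pos (Real.rpow_pos_of_pos hx0 _) (hpos x hx0)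
    have h2 : t * (t - 1) / x ^ 2 ≤ 0 := by
      apply div_nonpos_of_nonpos_of_nonneg _ (by positivity)
      nlinarith
    have h3 : 2 * η / x ≤ 1 / 2 := by
      rw [div_le_div_iff₀ hx0 (by norm_num)]
      linarith
    have h4 : (t * (t - 1) / x ^ 2 - 1 + 2 * η / x) ≤ -(1 / 2) := by linarith
    have h5 := mul_le_mul_of_nonneg_right h4 hw.le
    linarith
  · intro x hx
    have hx0 : 0 < x := by linarith
    exact mul_pos (Real.rpow_pos_of_pos hx0 _) (hpos x hx0)

/-! ### Behaviour near the origin and as `t → 0` -/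

lemma near_zero {η : ℝ} (hη : 0 < η) : ∃ δ > 0, ∀ t, 0 ≤ t → t ≤ 1 → ∀ x, 0 < x → x < δ →
    0 < S (a η t) x := by
  set c := 2 * η + 1 with hc
  set M0 := ∑' k, maj c 1 (k + 2) with hM0
  have hms := (summable_nat_add_iff 2).2 (maj_summable c 1)
  have hM0' : 0 ≤ M0 := tsum_nonneg fun k => by unfold maj; positivity
  refine ⟨min 1 (η / (M0 + 1)), by positivity, ?_⟩
  intro t h0 h1 x hx hxδ
  have hx1 : x < 1 := lt_of_lt_of_le hxδ (min_le_left _ _)
  have hx2 : x < η / (M0 + 1) := lt_of_lt_of_le hxδ (min_le_right _ _)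
  have hA := ent_a hη.le h0 h1
  have hs := hA.summable x
  have h2 : S (a η t) x = t + η * x + ∑' k, a η t (k + 2) * x ^ (k + 2) := by
    unfold S
    rw [← hs.sum_add_tsum_nat_add 2, Finset.sum_range_succ, Finset.sum_range_one, a_zero, a_one]
    ring
  have h3 : |∑' k, a η t (k + 2) * x ^ (k + 2)| ≤ x ^ 2 * M0 := by
    rw [← Real.norm_eq_abs, hM0, ← tsum_mul_left]
    apply tsum_of_norm_bounded (hms.mul_left (x ^ 2)).hasSum
    intro k
    rw [Real.norm_eq_abs, abs_mul, abs_of_pos (show 0 < x ^ (k + 2) by positivity)]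
    have h4 := (a_bound hη.le h0 h1 (k + 2)).1
    unfold maj
    rw [one_pow, mul_one]
    calc |a η t (k + 2)| * x ^ (k + 2) ≤ c ^ (k + 2) / ((k + 2 - 1).factorial : ℝ) * x ^ (k + 2) :=
          mul_le_mul_of_nonneg_right h4 (by positivity)
      _ ≤ c ^ (k + 2) / ((k + 2 - 1).factorial : ℝ) * x ^ 2 := by
          apply mul_le_mul_of_nonneg_left _ (by positivity)
          exact pow_le_pow_of_le_one hx.le hx1.le (by omega)
      _ = x ^ 2 * (c ^ (k + 2) / ((k + 2 - 1).factorial : ℝ)) := mul_comm _ _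
  rw [h2]
  have h4 := (abs_le.1 h3).1
  have h5 : x * (M0 + 1) < η := by rwa [lt_div_iff₀ (by positivity)] at hx2
  nlinarith

lemma a_tendsto (η : ℝ) (k : ℕ) : Tendsto (fun t => a η t k) (𝓝[>] 0) (𝓝 (a η 0 k)) ∧
    Tendsto (fun t => a η t (k + 1)) (𝓝[>] 0) (𝓝 (a η 0 (k + 1))) := by
  induction k with
  | zero =>
    constructor
    · simp only [a_zero]
      exact tendsto_nhdsWithin_of_tendsto_nhds tendsto_id
    · simp only [zero_add, a_one]
      exact tendsto_const_nhds
  | succ k ih =>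
    refine ⟨ih.2, ?_⟩
    simp only [show k + 1 + 1 = k + 2 by ring, a_succ]
    apply Tendsto.div
    · exact (ih.2.const_mul _).sub ih.1
    · have : Continuous fun t : ℝ => ((k : ℝ) + 2) * (k + 1 + 2 * t) := by fun_prop
      exact (this.tendsto 0).mono_left nhdsWithin_le_nhds
    · positivity

lemma S_uniform {η : ℝ} (hη : 0 ≤ η) {X ε : ℝ} (hX : 0 ≤ X) (hε : 0 < ε) :
    ∀ᶠ t in 𝓝[>] (0 : ℝ), ∀ x, 0 ≤ x → x ≤ X → |S (a η t) x - S (a η 0) x| < ε := by
  set c := 2 * η + 1 with hc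
  have hev : ∀ᶠ t in 𝓝[>] (0 : ℝ), 0 ≤ t ∧ t ≤ 1 := by
    filter_upwards [Ioo_mem_nhdsGT (zero_lt_one (α := ℝ))] with t ht
    exact ⟨ht.1.le, ht.2.le⟩
  have hbd : ∀ t, 0 ≤ t → t ≤ 1 → ∀ k, ‖|a η t k - a η 0 k| * X ^ k‖ ≤ 2 * maj c X k := by
    intro t h0 h1 k
    rw [Real.norm_eq_abs, abs_of_nonneg (by positivity)]
    have e1 := (a_bound hη h0 h1 k).1
    have e2 := (a_bound hη le_rfl zero_le_one k).1
    have e3 := abs_sub (a η t k) (a η 0 k)
    unfold maj
    rw [← mul_assoc]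
    apply mul_le_mul_of_nonneg_right _ (by positivity)
    linarith
  have hlim : Tendsto (fun t => ∑' k, |a η t k - a η 0 k| * X ^ k) (𝓝[>] 0)
      (𝓝 (∑' _k : ℕ, (0 : ℝ))) := by
    apply tendsto_tsum_of_dominated_convergence ((maj_summable c X).mul_left 2)
    · intro k
      have h1 := ((a_tendsto η k).1.sub_const (a η 0 k)).abs.mul_const (X ^ k)
      simpa using h1
    · filter_upwards [hev] with t ht k
      exact hbd t ht.1 ht.2 k
  rw [tsum_zero] at hlim
  filter_upwards [hlim.eventually (gt_mem_nhds hε), hev] with t ht1 ht2 x hx0 hxX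
  refine lt_of_le_of_lt ?_ ht1
  have s1 := (ent_a hη ht2.1 ht2.2).summable x
  have s2 := (ent_a hη le_rfl zero_le_one).summable x
  unfold S
  rw [← s1.tsum_sub s2, ← Real.norm_eq_abs]
  have s3 : Summable fun k => |a η t k - a η 0 k| * X ^ k :=
    Summable.of_norm_bounded ((maj_summable c X).mul_left 2) (hbd t ht2.1 ht2.2)
  apply tsum_of_norm_bounded s3.hasSum
  intro k
  rw [← sub_mul, Real.norm_eq_abs, abs_mul, abs_of_nonneg (show 0 ≤ x ^ k by positivity)]
  apply mul_le_mul_of_nonneg_left _ (abs_nonneg _)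
  exact pow_le_pow_left₀ hx0 hxX k

lemma a_rel (η : ℝ) (k : ℕ) : a η 0 (k + 1) = η * a η 1 k ∧ a η 0 (k + 2) = η * a η 1 (k + 1) := by
  induction k with
  | zero =>
    constructor
    · rw [zero_add, a_one, a_zero]; ring
    · rw [a_succ, zero_add, a_one, a_one, a_zero]
      push_cast
      ring
  | succ k ih =>
    refine ⟨ih.2, ?_⟩
    rw [show k + 1 + 2 = (k + 1) + 2 by ring, a_succ, show k + 1 + 1 = k + 2 by ring, ih.2, ih.1,
      a_succ]
    have h1 : ((k : ℝ) + 2) ≠ 0 := by positivity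
    have h2 : ((k : ℝ) + 3) ≠ 0 := by positivity
    have h3 : ((k : ℝ) + 1 + 2) ≠ 0 := by positivity
    push_cast
    field_simp
    ring

lemma S_rel {η : ℝ} (hη : 0 ≤ η) (x : ℝ) : S (a η 0) x = η * x * S (a η 1) x := by
  have h1 : a η 0 = sh (fun k => η * a η 1 k) := by
    funext k
    cases k with
    | zero => rw [a_zero]; rfl
    | succ k => exact (a_rel η k).1
  have h2 : Ent (fun k => η * a η 1 k) := by
    intro R hR
    refine ((ent_a hη zero_le_one le_rfl R hR).mul_left |η|).congr fun k => ?_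
    rw [abs_mul]
    ring
  rw [h1, S_sh h2]
  unfold S
  have : ∑' k, η * a η 1 k * x ^ k = η * ∑' k, a η 1 k * x ^ k := by
    rw [← tsum_mul_left]
    apply tsum_congr
    intro k
    ring
  rw [this]
  ring

/-- first positive zero of `S (a η t)` -/
def IsFirst (η t x : ℝ) : Prop := 0 < x ∧ S (a η t) x = 0 ∧ ∀ y, 0 < y → y < x → S (a η t) y ≠ 0

lemma exists_first {η t : ℝ} (hη : 0 < η) (h0 : 0 < t) (h1 : t ≤ 1) : ∃ x, IsFirst η t x := by
  obtain ⟨δ, hδ, hpos⟩ := near_zero hη
  obtain ⟨z, hz, hz0⟩ := exists_zero hη.le h0 h1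
  have hA := ent_a hη.le h0.le h1
  have hcont := S_cont hA
  have hzδ : δ ≤ z := by
    by_contra h
    push Not at h
    have := hpos t h0.le h1 z hz h
    linarith
  set Z : Set ℝ := Ici δ ∩ {x | S (a η t) x = 0} with hZ
  have hclosed : IsClosed Z := isClosed_Ici.inter (isClosed_eq hcont continuous_const)
  have hne : Z.Nonempty := ⟨z, hzδ, hz0⟩
  have hbdd : BddBelow Z := ⟨δ, fun x hx => hx.1⟩
  have hmem := hclosed.csInf_mem hne hbdd
  refine ⟨sInf Z, lt_of_lt_of_le hδ hmem.1, hmem.2, ?_⟩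
  intro y hy hylt hy0
  rcases lt_or_ge y δ with h | h
  · have := hpos t h0.le h1 y hy h
    linarith
  · exact absurd (csInf_le hbdd ⟨h, hy0⟩) (not_le.2 hylt)

lemma main_S {η : ℝ} (hη : 0 < η) : ∃ t₁ t₂ x₁ x₂ : ℝ, 0 < t₁ ∧ t₁ < t₂ ∧ t₂ ≤ 1 ∧
    IsFirst η t₁ x₁ ∧ IsFirst η t₂ x₂ ∧ x₂ ≤ x₁ := by
  obtain ⟨x0, hx0⟩ := exists_first hη one_pos le_rfl
  obtain ⟨xh, hxh⟩ := exists_first hη (show (0 : ℝ) < 1 / 2 by norm_num) (by norm_num)
  rcases le_or_gt x0 xh with h | h
  · exact ⟨1 / 2, 1, xh, x0, by norm_num, by norm_num, le_rfl, hxh, hx0, h⟩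
  · obtain ⟨δ, hδ, hpos⟩ := near_zero hη
    have hxh0 : 0 < xh := hxh.1
    have hc1 := S_cont (ent_a hη.le (zero_le_one (α := ℝ)) le_rfl)
    have hc0 := S_cont (ent_a hη.le (le_refl (0 : ℝ)) zero_le_one)
    -- positivity of the limit function on `(0, xh]`
    have hp1 : ∀ x, 0 < x → x < x0 → 0 < S (a η 1) x :=
      pos_of_no_zero hc1 hδ (hpos 1 zero_le_one le_rfl) hx0.2.2
    have hp0 : ∀ x, 0 < x → x ≤ xh → 0 < S (a η 0) x := by
      intro x hx hxx
      rw [S_rel hη.le]
      have := hp1 x hx (lt_of_le_of_lt hxx h)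
      positivity
    -- minimum on `[δ', xh]`
    set δ' := min (δ / 2) xh with hδ'
    have hδ'0 : 0 < δ' := lt_min (by linarith) hxh0
    obtain ⟨m, hm, hmin⟩ := isCompact_Icc.exists_isMinOn
      (nonempty_Icc.2 (min_le_right (δ / 2) xh)) hc0.continuousOn
    have hm0 : 0 < S (a η 0) m := hp0 m (lt_of_lt_of_le hδ'0 hm.1) hm.2
    have hunif := S_uniform hη.le hxh0.le hm0
    obtain ⟨t, ht1, ht2⟩ := (hunif.and (Ioo_mem_nhdsGT (show (0 : ℝ) < 1 / 2 by norm_num))).exists
    obtain ⟨x1, hx1⟩ := exists_first hη ht2.1 (by linarith [ht2.2])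
    refine ⟨t, 1 / 2, x1, xh, ht2.1, ht2.2, by norm_num, hx1, hxh, ?_⟩
    by_contra hcon
    push Not at hcon
    rcases lt_or_ge x1 δ' with h2 | h2
    · have h3 := hpos t ht2.1.le (by linarith [ht2.2]) x1 hx1.1
        (lt_of_lt_of_le h2 ((min_le_left _ _).trans (by linarith)))
      have := hx1.2.1
      linarith
    · have h3 := ht1 x1 hx1.1.le hcon.le
      rw [hx1.2.1, zero_sub, abs_neg] at h3
      have h4 : S (a η 0) m ≤ S (a η 0) x1 := hmin ⟨h2, hcon.le⟩
      have h5 := le_abs_self (S (a η 0) x1)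
      linarith


/-! ### Kummer's function -/

section kummer

open PowerSeries

/-- coefficients of `M(a, b, 2 i ρ)` in `ρ` -/
noncomputable def Kc (a b : ℂ) (k : ℕ) : ℂ := poch a k / poch b k * ((2 * I) ^ k / (k.factorial : ℂ))

/-- coefficients of `e^{-iρ}` -/
noncomputable def Ec (k : ℕ) : ℂ := (-I) ^ k / (k.factorial : ℂ)

lemma poch_succ (a : ℂ) (k : ℕ) : poch a (k + 1) = poch a k * (a + k) := by
  unfold poch
  rw [Finset.prod_range_succ]

lemma poch_ne {t : ℝ} (ht : 0 < t) (k : ℕ) : poch (2 * (t : ℂ)) k ≠ 0 := by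
  unfold poch
  rw [Finset.prod_ne_zero_iff]
  intro j _ h
  have := congrArg Complex.re h
  simp at this
  have h2 : (0 : ℝ) ≤ j := by positivity
  linarith

lemma Kc_succ (a : ℂ) {t : ℝ} (ht : 0 < t) (k : ℕ) :
    Kc a (2 * t) (k + 1) * ((2 * t + k) * (k + 1)) = Kc a (2 * t) k * ((a + k) * (2 * I)) := by
  unfold Kc
  have h1 := poch_ne ht k
  have h2 : (2 * (t : ℂ) + k) ≠ 0 := by
    intro h
    have := congrArg Complex.re h
    simp at this
    have h2 : (0 : ℝ) ≤ k := by positivity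
    linarith
  have h3 : ((k : ℂ) + 1) ≠ 0 := Nat.cast_add_one_ne_zero k
  have h4 : (k.factorial : ℂ) ≠ 0 := by exact_mod_cast k.factorial_ne_zero
  rw [poch_succ, poch_succ, Nat.factorial_succ, pow_succ]
  push_cast
  field_simp

lemma Kc_bound {t η : ℝ} (ht : 0 < t) (k : ℕ) :
    ‖Kc (t - I * η) (2 * t) k‖ ≤ (2 * (1 + (t + |η|) / (2 * t))) ^ k / (k.factorial : ℝ) := by
  set q := 1 + (t + |η|) / (2 * t) with hq
  have hq0 : 0 < q := by positivity
  have h1 : ‖poch (t - I * η) k / poch (2 * (t : ℂ)) k‖ ≤ q ^ k := by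
    unfold poch
    rw [← Finset.prod_div_distrib, norm_prod]
    calc ∏ j ∈ Finset.range k, ‖((t : ℂ) - I * η + j) / (2 * t + j)‖ ≤
          ∏ _j ∈ Finset.range k, q := by
          apply Finset.prod_le_prod
          · intro j _; exact norm_nonneg _
          · intro j _
            rw [norm_div]
            have hj : (0 : ℝ) ≤ j := by positivity
            have e1 : ‖(2 * (t : ℂ) + j)‖ = 2 * t + j := by
              have : (2 * (t : ℂ) + j) = ((2 * t + j : ℝ) : ℂ) := by push_cast; ring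
              rw [this, Complex.norm_real, Real.norm_eq_abs, abs_of_pos (by positivity)]
            have e2 : ‖((t : ℂ) - I * η + j)‖ ≤ t + |η| + j := by
              have h3 : ((t : ℂ) - I * η + j) = ((t + j : ℝ) : ℂ) - I * η := by push_cast; ring
              rw [h3]
              refine (norm_sub_le _ _).trans ?_
              rw [Complex.norm_real, norm_mul, Complex.norm_I, one_mul, Complex.norm_real,
                Real.norm_eq_abs, Real.norm_eq_abs, abs_of_pos (show 0 < t + (j : ℝ) by positivity)]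
              linarith
            rw [e1, div_le_iff₀ (by positivity)]
            refine e2.trans ?_
            rw [hq]
            have h4 : (1 + (t + |η|) / (2 * t)) * (2 * t + j) =
                2 * t + j + (t + |η|) + (t + |η|) / (2 * t) * j := by
              field_simp
              ring
            rw [h4]
            have h5 : 0 ≤ (t + |η|) / (2 * t) * j := by positivity
            linarith
      _ = q ^ k := by rw [Finset.prod_const, Finset.card_range]
  unfold Kc
  have e : ‖(2 * I) ^ k / (k.factorial : ℂ)‖ = 2 ^ k / (k.factorial : ℝ) := by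
    rw [norm_div, norm_pow, norm_mul, Complex.norm_I, mul_one, Complex.norm_ofNat,
      Complex.norm_natCast]
  rw [norm_mul, e, mul_pow]
  calc ‖poch (t - I * η) k / poch (2 * (t : ℂ)) k‖ * (2 ^ k / (k.factorial : ℝ))
      ≤ q ^ k * (2 ^ k / (k.factorial : ℝ)) := mul_le_mul_of_nonneg_right h1 (by positivity)
    _ = 2 ^ k * q ^ k / (k.factorial : ℝ) := by ring

lemma E_ode : d⁄dX ℂ (PowerSeries.mk Ec) = PowerSeries.C (-I) * PowerSeries.mk Ec := by
  ext n
  rw [coeff_derivative, coeff_mk, coeff_C_mul, coeff_mk]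
  unfold Ec
  have h3 : ((n : ℂ) + 1) ≠ 0 := Nat.cast_add_one_ne_zero n
  have h4 : (n.factorial : ℂ) ≠ 0 := by exact_mod_cast n.factorial_ne_zero
  rw [Nat.factorial_succ, pow_succ]
  push_cast
  field_simp

lemma K_ode (a : ℂ) {t : ℝ} (ht : 0 < t) :
    X * d⁄dX ℂ (d⁄dX ℂ (PowerSeries.mk (Kc a (2 * t)))) +
      (PowerSeries.C (2 * (t : ℂ)) - PowerSeries.C (2 * I) * X) * d⁄dX ℂ (PowerSeries.mk (Kc a (2 * t))) -
      PowerSeries.C (2 * I * a) * PowerSeries.mk (Kc a (2 * t)) = 0 := by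
  ext n
  rw [sub_mul, mul_assoc (PowerSeries.C (2 * I))]
  cases n with
  | zero =>
    have h := Kc_succ a ht 0
    simp only [map_sub, map_add, coeff_zero_X_mul, coeff_C_mul, coeff_derivative, coeff_mk,
      map_zero, mul_zero]
    push_cast at *
    simp only [zero_add, add_zero, mul_one] at *
    linear_combination h
  | succ n =>
    have h := Kc_succ a ht (n + 1)
    simp only [map_sub, map_add, coeff_succ_X_mul, coeff_C_mul, coeff_derivative, coeff_mk,
      map_zero]
    push_cast at *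
    linear_combination h

lemma H_ode {t η : ℝ} (ht : 0 < t) :
    X * d⁄dX ℂ (d⁄dX ℂ (PowerSeries.mk Ec * PowerSeries.mk (Kc (t - I * η) (2 * t)))) +
      PowerSeries.C (2 * (t : ℂ)) * d⁄dX ℂ (PowerSeries.mk Ec * PowerSeries.mk (Kc (t - I * η) (2 * t))) +
      (X - PowerSeries.C (2 * (η : ℂ))) * (PowerSeries.mk Ec * PowerSeries.mk (Kc (t - I * η) (2 * t))) = 0 := by
  have hK := K_ode (t - I * η) ht
  set E := PowerSeries.mk Ec with hE
  set K := PowerSeries.mk (Kc (t - I * η) (2 * t)) with hKd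
  have hE' : d⁄dX ℂ E = PowerSeries.C (-I) * E := E_ode
  have hCE : d⁄dX ℂ (PowerSeries.C (-I) * E) = PowerSeries.C (-I) * (PowerSeries.C (-I) * E) := by
    rw [Derivation.leibniz, derivative_C, smul_zero, add_zero, smul_eq_mul, hE']
  have h1 : d⁄dX ℂ (E * K) = E * d⁄dX ℂ K + K * (PowerSeries.C (-I) * E) := by
    rw [Derivation.leibniz, smul_eq_mul, smul_eq_mul, hE']
  have h2 : d⁄dX ℂ (d⁄dX ℂ (E * K)) = E * d⁄dX ℂ (d⁄dX ℂ K) + d⁄dX ℂ K * (PowerSeries.C (-I) * E) +
      (K * (PowerSeries.C (-I) * (PowerSeries.C (-I) * E)) + (PowerSeries.C (-I) * E) * d⁄dX ℂ K) := by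
    rw [h1, map_add, Derivation.leibniz, Derivation.leibniz, smul_eq_mul, smul_eq_mul,
      smul_eq_mul, smul_eq_mul, hE', hCE]
  rw [h2, h1]
  have c1 : (PowerSeries.C (-I) : ℂ⟦X⟧) * PowerSeries.C (-I) = -1 := by
    rw [← map_mul]
    have : (-I * -I : ℂ) = -1 := by rw [neg_mul_neg, Complex.I_mul_I]
    rw [this, map_neg, map_one]
  have c2 : (PowerSeries.C (-I) : ℂ⟦X⟧) * PowerSeries.C (2 * (t : ℂ)) - PowerSeries.C (2 * (η : ℂ)) = -PowerSeries.C (2 * I * (t - I * η)) := by
    rw [← map_mul, ← map_sub, ← map_neg]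
    congr 1
    linear_combination (-2 * (η : ℂ)) * Complex.I_mul_I
  have c3 : (PowerSeries.C (2 * I) : ℂ⟦X⟧) = -2 * PowerSeries.C (-I) := by
    have : (2 * I : ℂ) = 2 * -(-I) := by ring
    rw [this, map_mul, map_neg]
    have h2 : (PowerSeries.C (2 : ℂ) : ℂ⟦X⟧) = 2 := map_ofNat _ 2
    rw [h2]
    ring
  rw [c3] at hK
  linear_combination E * hK + (E * K * X) * c1 + (E * K) * c2


/-- the coefficients of the product are the real numbers `a η t k / t` -/
lemma H_coeff {t η : ℝ} (ht : 0 < t) (k : ℕ) :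
    (t : ℂ) * coeff k (PowerSeries.mk Ec * PowerSeries.mk (Kc (t - I * η) (2 * t))) =
      ((a η t k : ℝ) : ℂ) ∧
    (t : ℂ) * coeff (k + 1) (PowerSeries.mk Ec * PowerSeries.mk (Kc (t - I * η) (2 * t))) =
      ((a η t (k + 1) : ℝ) : ℂ) := by
  have hode := H_ode (η := η) ht
  set H := PowerSeries.mk Ec * PowerSeries.mk (Kc (t - I * η) (2 * t)) with hH
  have ht0 : (t : ℂ) ≠ 0 := by exact_mod_cast ht.ne'
  have h0 : coeff 0 H = 1 := by
    rw [hH, coeff_mul, Finset.Nat.antidiagonal_zero, Finset.sum_singleton, coeff_mk, coeff_mk]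
    simp [Ec, Kc, poch]
  have hrec0 : 2 * (t : ℂ) * coeff 1 H - 2 * (η : ℂ) * coeff 0 H = 0 := by
    have h := congrArg (coeff 0) hode
    rw [sub_mul] at h
    simp only [map_sub, map_add, coeff_zero_X_mul, coeff_C_mul, coeff_derivative, map_zero] at h
    push_cast at h
    simp only [zero_add, mul_one] at h
    linear_combination h
  have hrec : ∀ n : ℕ, ((n : ℂ) + 2) * (n + 1 + 2 * t) * coeff (n + 2) H =
      2 * (η : ℂ) * coeff (n + 1) H - coeff n H := by
    intro n
    have h := congrArg (coeff (n + 1)) hode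
    rw [sub_mul] at h
    simp only [map_sub, map_add, coeff_succ_X_mul, coeff_C_mul, coeff_derivative, map_zero] at h
    push_cast at h
    linear_combination h
  induction k with
  | zero =>
    constructor
    · rw [h0, a_zero, mul_one]
    · rw [zero_add, a_one]
      rw [h0] at hrec0
      linear_combination hrec0 / 2
  | succ k ih =>
    refine ⟨ih.2, ?_⟩
    rw [show k + 1 + 1 = k + 2 by ring, a_succ]
    push_cast
    rw [← ih.1, ← ih.2]
    have h1 := hrec k
    have h2 : ((k : ℂ) + 2) ≠ 0 := by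
      have : ((k : ℝ) + 2) ≠ 0 := by positivity
      exact_mod_cast this
    have h3 : ((k : ℂ) + 1 + 2 * t) ≠ 0 := by
      have : ((k : ℝ) + 1 + 2 * t) ≠ 0 := by positivity
      exact_mod_cast this
    rw [eq_div_iff (mul_ne_zero h2 h3)]
    linear_combination (t : ℂ) * h1

lemma kummer_eq {t η : ℝ} (hη : 0 ≤ η) (ht : 0 < t) (h1 : t ≤ 1) (ρ : ℝ) :
    (t : ℂ) * (Complex.exp (-(I * ρ)) * M (t - I * η) (2 * t) (2 * I * ρ)) =
      ((S (a η t) ρ : ℝ) : ℂ) := by
  have hE : Complex.exp (-(I * ρ)) = ∑' k, Ec k * (ρ : ℂ) ^ k := by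
    rw [Complex.exp_eq_exp_ℂ, NormedSpace.exp_eq_tsum_div]
    apply tsum_congr
    intro k
    unfold Ec
    rw [show -(I * (ρ : ℂ)) = -I * ρ by ring, mul_pow]
    ring
  have hM : M (t - I * η) (2 * t) (2 * I * ρ) = ∑' k, Kc (t - I * η) (2 * t) k * (ρ : ℂ) ^ k := by
    unfold M
    apply tsum_congr
    intro k
    unfold Kc
    rw [mul_pow]
    ring
  have hEs : Summable fun k => ‖Ec k * (ρ : ℂ) ^ k‖ := by
    refine (Real.summable_pow_div_factorial |ρ|).congr fun k => ?_
    unfold Ec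
    rw [norm_mul, norm_div, norm_pow, norm_pow, norm_neg, Complex.norm_I, one_pow,
      Complex.norm_natCast, Complex.norm_real, Real.norm_eq_abs]
    ring
  have hKs : Summable fun k => ‖Kc (t - I * η) (2 * t) k * (ρ : ℂ) ^ k‖ := by
    refine Summable.of_nonneg_of_le (fun k => norm_nonneg _) (fun k => ?_)
      (Real.summable_pow_div_factorial (2 * (1 + (t + |η|) / (2 * t)) * |ρ|))
    rw [norm_mul, norm_pow, Complex.norm_real, Real.norm_eq_abs]
    refine (mul_le_mul_of_nonneg_right (Kc_bound ht k) (by positivity)).trans (le_of_eq ?_)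
    rw [mul_pow _ |ρ|]
    ring
  rw [hE, hM, tsum_mul_tsum_eq_tsum_sum_antidiagonal_of_summable_norm hEs hKs, ← tsum_mul_left]
  unfold S
  rw [Complex.ofReal_tsum]
  apply tsum_congr
  intro k
  push_cast
  rw [← (H_coeff ht k).1, coeff_mul, mul_assoc, Finset.sum_mul]
  congr 1
  apply Finset.sum_congr rfl
  intro p hp
  rw [Finset.HasAntidiagonal.mem_antidiagonal] at hp
  rw [coeff_mk, coeff_mk, ← hp, pow_add]
  ring

end kummer

lemma C_ne {L η : ℝ} (hL : -1 < L) : (C L η : ℂ) ≠ 0 := by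
  unfold C
  have h1 : 0 < ‖Complex.Gamma (L + 1 + I * η)‖ := by
    rw [norm_pos_iff]
    apply Complex.Gamma_ne_zero_of_re_pos
    simp
    linarith
  have h2 : 0 < Real.Gamma (2 * L + 2) := Real.Gamma_pos_of_pos (by linarith)
  have h3 : (0 : ℝ) < 2 ^ L := by positivity
  have : 0 < 2 ^ L * Real.exp (-Real.pi * η / 2) * ‖Complex.Gamma (L + 1 + I * η)‖ /
      Real.Gamma (2 * L + 2) := by positivity
  exact_mod_cast this.ne'

lemma F_zero_iff {η t ρ : ℝ} (hη : 0 ≤ η) (ht : 0 < t) (h1 : t ≤ 1) (hρ : 0 < ρ) :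
    F (t - 1) η ρ = 0 ↔ S (a η t) ρ = 0 := by
  unfold F
  have hC := C_ne (L := t - 1) (η := η) (by linarith)
  have hp : ((ρ ^ (t - 1 + 1) : ℝ) : ℂ) ≠ 0 := by
    have : 0 < ρ ^ (t - 1 + 1) := Real.rpow_pos_of_pos hρ _
    exact_mod_cast this.ne'
  have h2 := kummer_eq hη ht h1 ρ
  have ht0 : (t : ℂ) ≠ 0 := by exact_mod_cast ht.ne'
  have e1 : (((t - 1 : ℝ) : ℂ) + 1 - I * η) = t - I * η := by push_cast; ring
  have e2 : (2 * ((t - 1 : ℝ) : ℂ) + 2) = 2 * t := by push_cast; ring
  rw [e1, e2, mul_assoc]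
  constructor
  · intro h
    rcases mul_eq_zero.1 h with h3 | h3
    · rcases mul_eq_zero.1 h3 with h4 | h4
      · exact absurd h4 hC
      · exact absurd h4 hp
    · rw [h3, mul_zero] at h2
      exact_mod_cast h2.symm
  · intro h
    rw [h, Complex.ofReal_zero] at h2
    rcases mul_eq_zero.1 h2 with h3 | h3
    · exact absurd h3 ht0
    · rw [h3, mul_zero]

lemma isNthZero_of_first {η t x : ℝ} (hη : 0 ≤ η) (ht : 0 < t) (h1 : t ≤ 1)
    (h : IsFirst η t x) : IsNthZero (t - 1) η 1 x := by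
  obtain ⟨hx, hx0, hmin⟩ := h
  refine ⟨hx, (F_zero_iff hη ht h1 hx).2 hx0, ?_⟩
  have : {y : ℝ | 0 < y ∧ y ≤ x ∧ F (t - 1) η y = 0} = {x} := by
    ext y
    constructor
    · rintro ⟨hy, hyx, hy0⟩
      by_contra hne
      have hlt : y < x := lt_of_le_of_ne hyx hne
      exact hmin y hy hlt ((F_zero_iff hη ht h1 hy).1 hy0)
    · rintro rfl
      exact ⟨hx, le_rfl, (F_zero_iff hη ht h1 hx).2 hx0⟩
  rw [this, Set.encard_singleton]
  rfl

/-- For every `η > 0` the first zero `ρ_{L,η,1}` is not an increasing function of `L` on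
`(-1, ∞)`: there are `-1 < L₁ < L₂ ≤ 0` with `ρ_{L₁,η,1} ≥ ρ_{L₂,η,1}`. -/
theorem result : ∀ η : ℝ, 0 < η → ∃ L₁ L₂ x₁ x₂ : ℝ, -1 < L₁ ∧ L₁ < L₂ ∧ L₂ ≤ 0 ∧
    IsNthZero L₁ η 1 x₁ ∧ IsNthZero L₂ η 1 x₂ ∧ x₂ ≤ x₁ := by
  intro η hη
  obtain ⟨t₁, t₂, x₁, x₂, ht1, ht12, ht2, h1, h2, h3⟩ := main_S hη
  exact ⟨t₁ - 1, t₂ - 1, x₁, x₂, by linarith, by linarith, by linarith,
    isNthZero_of_first hη.le ht1 (by linarith) h1,
    isNthZero_of_first hη.le (by linarith) ht2 h2, h3⟩

end Pool.Agent.Results.MP_75022b_an.NotMonotone
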